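import Pool.Agent.K1H59.VX.Stm3
import Pool.Agent.K1H45.VX.NLF
import Pool.Agent.K1H45.VX.NV
import Pool.Agent.K1H60.VX.Shear

/-!
# Good coordinates (`S_FAM`)
-/

set_option autoImplicit false

namespace Pool.Agent.K1H4.VX

open MvPolynomial Finset Pool.Agent.K1H59.VX Pool.Agent.K1H45.VX Pool.Agent.K1H60.VX

theorem sh_eq {n : ℕ} (p : Fin n) (c : Fin n → ℤ) (F : MvPolynomial (Fin n) ℤ) :
    sh p c F = shA ℤ p c F := by simp [sh, shA]

theorem nohyp_sh {n : ℕ} (p : Fin n) (c : Fin n → ℤ) (hc : c p = 0) (F : MvPolynomial (Fin n) ℤ)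
    (h : NoHyperplane F) : NoHyperplane (sh p c F) := by
  intro K _ _ l hl
  set s : K := ∑ i, l i * (c i : K) with hs
  have hne : (fun i => l i - if i = p then s else 0) ≠ 0 := by
    intro h0
    apply hl
    have h1 : ∀ i, i ≠ p → l i = 0 := by
      intro i hi
      have := congrFun h0 i
      simpa [hi] using this
    have h2 : s = 0 := by
      rw [hs]
      refine Finset.sum_eq_zero fun i _ => ?_
      by_cases hi : i = p
      · rw [hi, hc]; simp
      · rw [h1 i hi, zero_mul]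
    funext i
    by_cases hi : i = p
    · have := congrFun h0 i
      simpa [hi, h2] using this
    · exact h1 i hi
  obtain ⟨w, hw, hw2⟩ := h K _ hne
  refine ⟨fun i => w i - (c i : K) * w p, ?_, ?_⟩
  · have h3 : ∑ i, l i * (w i - (c i : K) * w p) = ∑ i, l i * w i - s * w p := by
      rw [hs, Finset.sum_mul, ← Finset.sum_sub_distrib]
      exact Finset.sum_congr rfl fun i _ => by ring
    have h4 : ∑ i, (l i - if i = p then s else 0) * w i = ∑ i, l i * w i - s * w p := by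
      simp only [sub_mul, Finset.sum_sub_distrib, ite_mul, zero_mul]
      simp
    rw [h3, ← h4]
    exact hw
  · rw [(shear n p c hc).2.1]
    have : (fun i => w i - (c i : K) * w p + (c i : K) * (w p - (c p : K) * w p)) = w := by
      funext i
      rw [hc]; simp
    rw [this]
    exact hw2

theorem quad {R ι : Type*} [CommRing R] [Fintype ι] (a g h : ι → R) (b : ι → ι → R) (g0 g00 : R) :
    ∑ i, ∑ k, a i * a k * (g0 ^ 2 * b i k - g0 * g i * h k - g0 * g k * h i + g i * g k * g00) =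
      g0 ^ 2 * (∑ i, a i * ∑ k, a k * b i k) - g0 * (∑ i, a i * g i) * (∑ i, a i * h i)
        - g0 * (∑ i, a i * g i) * (∑ i, a i * h i)
        + (∑ i, a i * g i) * (∑ i, a i * g i) * g00 := by
  have e1 : ∑ i, ∑ k, a i * a k * (g0 ^ 2 * b i k) = g0 ^ 2 * (∑ i, a i * ∑ k, a k * b i k) := by
    simp only [Finset.mul_sum]
    exact Finset.sum_congr rfl fun i _ => Finset.sum_congr rfl fun k _ => by ring
  have e2 : ∑ i, ∑ k, a i * a k * (g0 * g i * h k) =
      g0 * (∑ i, a i * g i) * (∑ i, a i * h i) := by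
    rw [mul_assoc, Finset.sum_mul_sum, Finset.mul_sum]
    refine Finset.sum_congr rfl fun i _ => ?_
    rw [Finset.mul_sum]
    exact Finset.sum_congr rfl fun k _ => by ring
  have e3 : ∑ i, ∑ k, a i * a k * (g0 * g k * h i) =
      g0 * (∑ i, a i * g i) * (∑ i, a i * h i) := by
    rw [← e2, Finset.sum_comm]
    exact Finset.sum_congr rfl fun i _ => Finset.sum_congr rfl fun k _ => by ring
  have e4 : ∑ i, ∑ k, a i * a k * (g i * g k * g00) =
      (∑ i, a i * g i) * (∑ i, a i * g i) * g00 := by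
    rw [Finset.sum_mul_sum, Finset.sum_mul]
    refine Finset.sum_congr rfl fun i _ => ?_
    rw [Finset.sum_mul]
    exact Finset.sum_congr rfl fun k _ => by ring
  simp only [mul_add, mul_sub, Finset.sum_add_distrib, Finset.sum_sub_distrib]
  rw [e1, e2, e3, e4]

/-- the vector of the second shear -/
def uu {m : ℕ} (u : Fin (m + 1) → ℤ) : Fin (m + 2) → ℤ :=
  Fin.cons 0 (fun i => if i = 0 then 0 else u i)

theorem uu_zero {m : ℕ} (u : Fin (m + 1) → ℤ) : uu u 0 = 0 := rfl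

theorem uu_one {m : ℕ} (u : Fin (m + 1) → ℤ) : uu u 1 = 0 := by
  show uu u (Fin.succ 0) = 0
  simp only [uu, Fin.cons_succ]
  simp

/-- the derivative in the direction `(0, u)` -/
noncomputable def DD {m : ℕ} (u : Fin (m + 1) → ℤ) (G : MvPolynomial (Fin (m + 2)) ℤ) :
    MvPolynomial (Fin (m + 2)) ℤ := ∑ i : Fin (m + 1), C (u i) * pderiv i.succ G

theorem pderiv_one_sh {m : ℕ} (u : Fin (m + 1) → ℤ) (hu : u 0 = 1)
    (G : MvPolynomial (Fin (m + 2)) ℤ) :
    pderiv 1 (sh 1 (uu u) G) = sh 1 (uu u) (DD u G) := by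
  rw [(shear (m + 2) 1 (uu u) (uu_one u)).2.2.2.1]
  congr 1
  unfold DD
  rw [Fin.sum_univ_succ (n := m + 1), Fin.sum_univ_succ (n := m), Fin.sum_univ_succ (n := m)]
  have h1 : uu u (Fin.succ 0) = 0 := uu_one u
  rw [uu_zero, h1, hu]
  have h2 : ∀ i : Fin m, uu u i.succ.succ = u i.succ := by
    intro i
    simp [uu, Fin.cons_succ]
  simp only [h2]
  simp

theorem pderiv_zero_sh {m : ℕ} (u : Fin (m + 1) → ℤ) (G : MvPolynomial (Fin (m + 2)) ℤ) :
    pderiv 0 (sh 1 (uu u) G) = sh 1 (uu u) (pderiv 0 G) :=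
  (shear (m + 2) 1 (uu u) (uu_one u)).2.2.1 G 0 (by simp)

theorem DD_DD {m : ℕ} (u : Fin (m + 1) → ℤ) (G : MvPolynomial (Fin (m + 2)) ℤ) :
    DD u (DD u G) = ∑ i : Fin (m + 1), C (u i) * ∑ k : Fin (m + 1), C (u k) *
      pderiv i.succ (pderiv k.succ G) := by
  unfold DD
  refine Finset.sum_congr rfl fun i _ => ?_
  rw [map_sum]
  have : ∀ k : Fin (m + 1), pderiv i.succ (C (u k) * pderiv k.succ G) =
      C (u k) * pderiv i.succ (pderiv k.succ G) := fun k => pderiv_C_mul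
  rw [Finset.sum_congr rfl fun k _ => this k]

theorem zero_DD {m : ℕ} (u : Fin (m + 1) → ℤ) (G : MvPolynomial (Fin (m + 2)) ℤ) :
    pderiv 0 (DD u G) = ∑ i : Fin (m + 1), C (u i) * pderiv 0 (pderiv i.succ G) := by
  unfold DD
  rw [map_sum]
  have : ∀ k : Fin (m + 1), pderiv 0 (C (u k) * pderiv k.succ G) =
      C (u k) * pderiv 0 (pderiv k.succ G) := fun k => pderiv_C_mul
  rw [Finset.sum_congr rfl fun k _ => this k]

theorem Q_sh1 {m : ℕ} (u : Fin (m + 1) → ℤ) (hu : u 0 = 1) (G : MvPolynomial (Fin (m + 2)) ℤ) :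
    Q (sh 1 (uu u) G) 1 1 = sh 1 (uu u)
      ((pderiv 0 G) ^ 2 * DD u (DD u G) - pderiv 0 G * DD u G * pderiv 0 (DD u G)
        - pderiv 0 G * DD u G * pderiv 0 (DD u G) + DD u G * DD u G * pderiv 0 (pderiv 0 G)) := by
  unfold Q
  rw [pderiv_one_sh u hu, pderiv_one_sh u hu, pderiv_zero_sh, pderiv_zero_sh, pderiv_zero_sh]
  simp only [sh_eq, map_mul, map_sub, map_add, map_pow]

theorem Q_sh {m : ℕ} (u : Fin (m + 1) → ℤ) (hu : u 0 = 1) (G : MvPolynomial (Fin (m + 2)) ℤ) :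
    Q (sh 1 (uu u) G) 1 1 =
      sh 1 (uu u) (∑ i : Fin (m + 1), ∑ k : Fin (m + 1), C (u i) * C (u k) *
        Q G i.succ k.succ) := by
  have h2 := quad (fun i : Fin (m + 1) => (C (u i) : MvPolynomial (Fin (m + 2)) ℤ))
    (fun i => pderiv i.succ G) (fun i => pderiv 0 (pderiv i.succ G))
    (fun i k => pderiv i.succ (pderiv k.succ G)) (pderiv 0 G) (pderiv 0 (pderiv 0 G))
  have h5 : DD u G = ∑ i : Fin (m + 1), C (u i) * pderiv i.succ G := rfl
  rw [Q_sh1 u hu G, DD_DD, zero_DD, h5]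
  unfold Q
  rw [h2]

theorem Q_symm {m : ℕ} (G : MvPolynomial (Fin (m + 2)) ℤ) (i k : Fin (m + 2)) :
    Q G i k = Q G k i := by
  unfold Q
  rw [pd_comm i k]
  ring

theorem const_eq {n : ℕ} (P : MvPolynomial (Fin n) ℤ) (h : P.IsHomogeneous 0) :
    P = C (eval 0 P) := by
  have h1 : P.totalDegree = 0 := Nat.le_zero.1 h.totalDegree_le
  rw [totalDegree_eq_zero_iff_eq_C] at h1
  rw [h1]
  simp

theorem lin_eq {n : ℕ} (G : MvPolynomial (Fin n) ℤ) (h : G.IsHomogeneous 1) :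
    G = ∑ i, C (eval 0 (pderiv i G)) * X i := by
  have h1 := h.sum_X_mul_pderiv
  rw [one_smul] at h1
  conv_lhs => rw [← h1]
  refine Finset.sum_congr rfl fun i _ => ?_
  have h2 : (pderiv i G).IsHomogeneous 0 := h.pderiv
  conv_lhs => rw [const_eq _ h2]
  ring

theorem prop_dvd {m : ℕ} (G K : MvPolynomial (Fin (m + 2)) ℤ) (hG : G.IsHomogeneous 1)
    (hK : K.IsHomogeneous 1) (h0 : eval 0 (pderiv 0 G) ≠ 0)
    (h : ∀ i : Fin (m + 1), eval 0 (pderiv 0 G) * eval 0 (pderiv i.succ K) -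
      eval 0 (pderiv 0 K) * eval 0 (pderiv i.succ G) = 0) : toQ G ∣ toQ K := by
  set a := eval 0 (pderiv 0 G) with ha
  set b := eval 0 (pderiv 0 K) with hb
  have h1 : ∀ i : Fin (m + 2), a * eval 0 (pderiv i K) = b * eval 0 (pderiv i G) := by
    intro i
    refine Fin.cases ?_ (fun i => ?_) i
    · rw [← ha, ← hb]; ring
    · have := h i
      linarith
  have h2 : C a * K = C b * G := by
    conv_lhs => rw [lin_eq K hK]
    conv_rhs => rw [lin_eq G hG]
    rw [Finset.mul_sum, Finset.mul_sum]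
    refine Finset.sum_congr rfl fun i _ => ?_
    rw [← mul_assoc, ← mul_assoc, ← C_mul, ← C_mul, h1 i]
  have h3 : C (a : ℚ) * toQ K = C (b : ℚ) * toQ G := by
    have := congrArg (toQ (n := m + 2)) h2
    simpa [toQ] using this
  refine ⟨C ((a : ℚ)⁻¹ * b), ?_⟩
  have ha' : (a : ℚ) ≠ 0 := by exact_mod_cast h0
  have h4 : (C ((a : ℚ)⁻¹) : MvPolynomial (Fin (m + 2)) ℚ) * (C (a : ℚ) * toQ K) = toQ K := by
    rw [← mul_assoc, ← C_mul, inv_mul_cancel₀ ha', C_1, one_mul]
  rw [← h4, h3, C_mul]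
  ring

theorem eval_zero_sh {n : ℕ} (p : Fin n) (c : Fin n → ℤ) (hc : c p = 0)
    (F : MvPolynomial (Fin n) ℤ) : eval 0 (sh p c F) = eval 0 F := by
  have := (shear n p c hc).2.1 ℤ 0 F
  simpa [coe_aeval_eq_eval] using this

theorem eval_sh {n : ℕ} (p : Fin n) (c : Fin n → ℤ) (hc : c p = 0)
    (z : Fin n → ℤ) (F : MvPolynomial (Fin n) ℤ) :
    eval z (sh p c F) = eval (fun i => z i + c i * z p) F := by
  have := (shear n p c hc).2.1 ℤ z F
  simpa [coe_aeval_eq_eval] using this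

theorem hom_sum {m : ℕ} {B : Type} [CommRing B] (φ : MvPolynomial (Fin (m + 2)) ℤ →+* B)
    (u : Fin (m + 1) → ℤ) (P : Fin (m + 1) → Fin (m + 1) → MvPolynomial (Fin (m + 2)) ℤ) :
    φ (∑ i : Fin (m + 1), ∑ k : Fin (m + 1), C (u i) * C (u k) * P i k) =
      ∑ i : Fin (m + 1), ∑ k : Fin (m + 1), (u i : B) * (u k : B) * φ (P i k) := by
  have hC : ∀ a : ℤ, φ (C a) = (a : B) := fun a => eq_intCast (φ.comp C) a
  simp only [map_sum, map_mul, hC]

theorem cast_sum {m : ℕ} {B : Type} [CommRing B] (u M : Fin (m + 1) → ℤ) :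
    ∑ i : Fin (m + 1), ∑ k : Fin (m + 1), (u i : B) * (u k : B) * ((M i * M k : ℤ) : B) =
      (((∑ i, u i * M i) * (∑ i, u i * M i) : ℤ) : B) := by
  rw [Finset.sum_mul_sum]
  simp only [Int.cast_sum, Int.cast_mul]
  exact Finset.sum_congr rfl fun i _ => Finset.sum_congr rfl fun l _ => by ring

/-- the choice of `u` -/
theorem choose_u {m q : ℕ} (G : Fin q → MvPolynomial (Fin (m + 2)) ℤ) (d : Fin q → ℕ)
    (hhom : ∀ j, (G j).IsHomogeneous (d j)) (hirr : ∀ j, Irreducible (toQ (G j)))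
    (hne : ∀ j k, j ≠ k → ¬ (toQ (G j) ∣ toQ (G k)))
    (hnh : ∀ j, 2 ≤ d j → NoHyperplane (G j)) :
    ∃ u : Fin (m + 1) → ℤ, u 0 = 1 ∧
      (∀ j, 2 ≤ d j → pderiv 0 (G j) ≠ 0 →
        ¬ (toQ (G j) ∣ toQ (∑ i : Fin (m + 1), ∑ k : Fin (m + 1), C (u i) * C (u k) *
          Q (G j) i.succ k.succ))) ∧
      (∀ j k, j ≠ k → d j = 1 → d k = 1 → eval 0 (pderiv 0 (G j)) ≠ 0 →
        eval 0 (pderiv 0 (G k)) ≠ 0 →
        ∑ i : Fin (m + 1), u i * (eval 0 (pderiv 0 (G j)) * eval 0 (pderiv i.succ (G k)) -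
          eval 0 (pderiv 0 (G k)) * eval 0 (pderiv i.succ (G j))) ≠ 0) := by
  classical
  have hprime : ∀ j : Fin q, (Ideal.span {toQ (G j)}).IsPrime := fun j =>
    (Ideal.span_singleton_prime (hirr j).ne_zero).2 (hirr j).prime
  let A : Fin q × Option (Fin q) → Type := fun a =>
    MvPolynomial (Fin (m + 2)) ℚ ⧸ Ideal.span {toQ (G a.1)}
  have hdom : ∀ a, IsDomain (A a) := fun a =>
    (Ideal.Quotient.isDomain_iff_prime _).2 (hprime a.1)
  have hchar : ∀ a, CharZero (A a) := fun a => algebraRat.charZero (A a)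
  let M : Fin q → Fin q → Fin (m + 1) → ℤ := fun j k i =>
    eval 0 (pderiv 0 (G j)) * eval 0 (pderiv i.succ (G k)) -
          eval 0 (pderiv 0 (G k)) * eval 0 (pderiv i.succ (G j))
  let f : ∀ a, Fin (m + 1) → Fin (m + 1) → A a := fun a i k =>
    match a.2 with
    | none => if 2 ≤ d a.1 ∧ pderiv 0 (G a.1) ≠ 0 then
        Ideal.Quotient.mk (Ideal.span {toQ (G a.1)}) (toQ (Q (G a.1) i.succ k.succ)) else 1
    | some b => if a.1 ≠ b ∧ d a.1 = 1 ∧ d b = 1 ∧ eval 0 (pderiv 0 (G a.1)) ≠ 0 then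
        ((M a.1 b i * M a.1 b k : ℤ) : A a) else 1
  have hsym : ∀ a i k, f a i k = f a k i := by
    rintro ⟨j, _ | b⟩ i k
    · simp only [f]
      rw [Q_symm]
    · simp only [f]
      rw [mul_comm (M j b i)]
  have hnz : ∀ a, ∃ i k, f a i k ≠ 0 := by
    rintro ⟨j, _ | b⟩
    · by_cases h : 2 ≤ d j ∧ pderiv 0 (G j) ≠ 0
      · obtain ⟨i, k, hik⟩ := t_NV m (G j) (d j) (by omega) (hhom j) (hirr j) h.2 (hnh j h.1)
        refine ⟨i, k, ?_⟩
        simp only [f]
        rw [if_pos h]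
        intro h0
        rw [Ideal.Quotient.eq_zero_iff_mem, Ideal.mem_span_singleton] at h0
        exact hik h0
      · refine ⟨0, 0, ?_⟩
        simp only [f]
        rw [if_neg h]
        exact one_ne_zero
    · by_cases h : j ≠ b ∧ d j = 1 ∧ d b = 1 ∧ eval 0 (pderiv 0 (G j)) ≠ 0
      · have hM : ∃ i, M j b i ≠ 0 := by
          by_contra hcon
          push Not at hcon
          exact hne j b h.1 (prop_dvd (G j) (G b) (h.2.1 ▸ hhom j) (h.2.2.1 ▸ hhom b) h.2.2.2 hcon)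
        obtain ⟨i, hi⟩ := hM
        refine ⟨i, i, ?_⟩
        simp only [f]
        rw [if_pos h]
        exact Int.cast_ne_zero.2 (mul_ne_zero hi hi)
      · refine ⟨0, 0, ?_⟩
        simp only [f]
        rw [if_neg h]
        exact one_ne_zero
  obtain ⟨u, hu0, hu⟩ := sel m (Fin q × Option (Fin q)) A f hsym hnz
  · refine ⟨u, hu0, ?_, ?_⟩
    · intro j hj hp hdvd
      apply hu (j, none)
      have hf : ∀ i k, f (j, none) i k =
          Ideal.Quotient.mk (Ideal.span {toQ (G j)}) (toQ (Q (G j) i.succ k.succ)) := by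
        intro i k
        simp only [f]
        rw [if_pos ⟨hj, hp⟩]
      simp only [hf]
      have h1 := hom_sum ((Ideal.Quotient.mk (Ideal.span {toQ (G j)})).comp
        (map (Int.castRingHom ℚ))) u (fun i k => Q (G j) i.succ k.succ)
      have h2 : ((Ideal.Quotient.mk (Ideal.span {toQ (G j)})).comp
        (map (Int.castRingHom ℚ))) (∑ i : Fin (m + 1), ∑ k : Fin (m + 1), C (u i) * C (u k) *
          Q (G j) i.succ k.succ) = 0 := by
        rw [RingHom.comp_apply, Ideal.Quotient.eq_zero_iff_mem, Ideal.mem_span_singleton]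
        exact hdvd
      exact h1.symm.trans h2
    · intro j k hjk hj hk h0 h0' hs
      apply hu (j, some k)
      have hf : ∀ i l, f (j, some k) i l = ((M j k i * M j k l : ℤ) : A (j, some k)) := by
        intro i l
        simp only [f]
        rw [if_pos ⟨hjk, hj, hk, h0⟩]
      simp only [hf]
      have h1 := cast_sum (B := A (j, some k)) u (M j k)
      rw [show (∑ i, u i * M j k i) = 0 from hs] at h1
      exact h1.trans (by simp)

/-- (W1) -/
theorem t_FAM : S_FAM := by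
  intro m q F d hm hD t
  classical
  -- the first shear
  let c0 : Fin (m + 2) → ℤ := fun i => if i = 0 then 0 else (t : ℤ) ^ (i : ℕ)
  have hc0 : c0 0 = 0 := by simp [c0]
  obtain ⟨a1, a2, a3, a4, a5, a6⟩ := shear (m + 2) 0 c0 hc0
  have hnh : ∀ j, 2 ≤ d j → NoHyperplane (sh 0 c0 (F j)) := by
    intro j hj
    refine nohyp_sh 0 c0 hc0 _ (t_NLF m (F j) (d j) hm hj (hD.hom j) ?_)
    intro K _ _ z hz hzF
    have h1 := (hD.snc K z hz).ne_zero ⟨j, hzF⟩
    by_contra hcon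
    push Not at hcon
    exact h1 (funext hcon)
  obtain ⟨u, hu0, hu1, hu2⟩ := choose_u (fun j => sh 0 c0 (F j)) d (fun j => a1 _ _ (hD.hom j))
    (fun j => a5 _ (hD.irr j)) (fun j k hjk h => hD.ne j k hjk (a6 _ _ h)) hnh
  obtain ⟨b1, b2, b3, b4, b5, b6⟩ := shear (m + 2) 1 (uu u) (uu_one u)
  let y : (Fin (m + 2) → ℤ) → (Fin (m + 2) → ℤ) := fun x i =>
    x i - uu u i * (x 1 - t * x 0) - c0 i * x 0
  have hc1 : c0 1 = t := by simp [c0]
  have hy0 : ∀ x, y x 0 = x 0 := by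
    intro x; simp [y, uu_zero, hc0]
  have hy1 : ∀ x, y x 1 = x 1 - t * x 0 := by
    intro x; simp [y, uu_one, hc1]
  have hyx : ∀ x i, y x i + uu u i * y x 1 + c0 i * x 0 = x i := by
    intro x i
    rw [hy1]
    simp only [y]
    ring
  have hev : ∀ (P : MvPolynomial (Fin (m + 2)) ℤ) x,
      eval (y x) (sh 1 (uu u) (sh 0 c0 P)) = eval x P := by
    intro P x
    rw [eval_sh 1 (uu u) (uu_one u), eval_sh 0 c0 hc0]
    congr 1
    congr 1
    funext i
    rw [uu_zero, hy0]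
    have := hyx x i
    linarith
  refine ⟨fun j => sh 1 (uu u) (sh 0 c0 (F j)), y,
    ∑ i : Fin (m + 2), (1 + |(uu u i : ℝ)| * (1 + t) + |(c0 i : ℝ)|), ?_, ?_, ?_, ?_, ?_, ?_, ?_,
    ?_, ?_, ?_⟩
  · calc (1 : ℝ) ≤ 1 + |(uu u 0 : ℝ)| * (1 + t) + |(c0 0 : ℝ)| := by
          have : 0 ≤ |(uu u 0 : ℝ)| * (1 + t) := by positivity
          have : 0 ≤ |(c0 0 : ℝ)| := abs_nonneg _
          linarith
      _ ≤ _ := Finset.single_le_sum
          (f := fun i : Fin (m + 2) => (1 + |(uu u i : ℝ)| * (1 + t) + |(c0 i : ℝ)|))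
          (fun i _ => by positivity) (Finset.mem_univ _)
  · intro x x' h
    have h0 : x 0 = x' 0 := by rw [← hy0 x, ← hy0 x', h]
    funext i
    rw [← hyx x i, ← hyx x' i, h, h0]
  · intro B x hB hx i
    have h1 : |(y x i : ℝ)| ≤ (1 + |(uu u i : ℝ)| * (1 + t) + |(c0 i : ℝ)|) * B := by
      have e : (y x i : ℝ) = x i - uu u i * (x 1 - t * x 0) - c0 i * x 0 := by
        simp only [y]; push_cast; ring
      rw [e]
      have k1 : |(x 1 : ℝ) - t * x 0| ≤ (1 + t) * B := by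
        calc |(x 1 : ℝ) - t * x 0| ≤ |(x 1 : ℝ)| + |(t : ℝ) * x 0| := abs_sub _ _
          _ ≤ B + t * B := by
              rw [abs_mul, Nat.abs_cast]
              exact add_le_add (hx 1) (mul_le_mul_of_nonneg_left (hx 0) (Nat.cast_nonneg t))
          _ = (1 + t) * B := by ring
      calc |(x i : ℝ) - uu u i * (x 1 - t * x 0) - c0 i * x 0|
          ≤ |(x i : ℝ)| + |(uu u i : ℝ) * (x 1 - t * x 0)| + |(c0 i : ℝ) * x 0| :=
            (abs_sub _ _).trans (add_le_add_left (abs_sub _ _) _)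
        _ ≤ B + |(uu u i : ℝ)| * ((1 + t) * B) + |(c0 i : ℝ)| * B := by
            rw [abs_mul, abs_mul]
            gcongr
            · exact hx i
            · exact hx 0
        _ = _ := by ring
    refine h1.trans (mul_le_mul_of_nonneg_right ?_ (by linarith))
    exact Finset.single_le_sum
          (f := fun i : Fin (m + 2) => (1 + |(uu u i : ℝ)| * (1 + t) + |(c0 i : ℝ)|))
          (fun i _ => by positivity) (Finset.mem_univ i)
  · intro j x
    exact hev (F j) x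
  · intro j x
    rw [pderiv_zero_sh, a4, hev]
    simp only [map_add, map_sum, map_mul, eval_C]
    rw [Fin.sum_univ_succ, Fin.sum_univ_succ (fun i : Fin (m + 2) => (t : ℤ) ^ (i : ℕ) *
      eval x (pderiv i (F j)))]
    simp [c0, Fin.succ_ne_zero]
  · intro j
    exact b1 _ _ (a1 _ _ (hD.hom j))
  · intro j
    exact b5 _ (a5 _ (hD.irr j))
  · intro j k hjk h
    exact hD.ne j k hjk (a6 _ _ (b6 _ _ h))
  · intro j hj hp hdvd
    rw [Q_sh u hu0] at hdvd
    refine hu1 j hj ?_ (b6 _ _ hdvd)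
    intro h0
    apply hp
    rw [pderiv_zero_sh, h0, sh_eq, map_zero]
  · intro j k hjk hj hk h0 h0'
    simp only [pderiv_zero_sh, pderiv_one_sh u hu0, eval_zero_sh 1 (uu u) (uu_one u)] at h0 h0' ⊢
    have h3 := hu2 j k hjk hj hk h0 h0'
    intro h4
    apply h3
    rw [← h4]
    simp only [DD, map_sum, map_mul, eval_C, Finset.mul_sum, Finset.sum_mul]
    rw [← Finset.sum_sub_distrib]
    exact Finset.sum_congr rfl fun i _ => by ring

end Pool.Agent.K1H4.VX
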